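import Mathlib
import Pool.Agent.Y1.KN.All
import Pool.Agent.Y1.KN.Use
import Pool.Agent.Y1.HZ.Main
import Pool.Agent.Y1.HZ.Betti
import Pool.Agent.Q265.AH.Sys

/-!
# Hodge classes and absolute Hodge classes on the products of all varieties with the abelian varieties of almost all CM types

Let `E` be an arbitrary CM field of degree `2 g`. It has `2 ^ g` CM types `Φ`. There is an absolute constant `C` such that all but at
most `2 ^ g * C * rate E g p` of them have this property: let `A` be any product of copies of the abelian variety of CM type
`(E, Φ)` and let `Y` be **any** smooth projective variety which is unrelated to `E` (`UnrelatedHodge`). Then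

* every Hodge class on `A × Y` is a sum of products `f ⊗ x`, where `f` is a combination of products of divisor classes on `A` and
  `x` is a Hodge class on `Y`;
* hence all Hodge classes on `A × Y` are absolute Hodge classes if and only if all Hodge classes on `Y` are absolute Hodge classes.

The condition on `Y`. Let `w ≠ 0` be a vector in the complex cohomology of `Y` such that for each automorphism `σ` of `ℂ` the
conjugate `σ w` is of pure type: a sum of classes of types `(p, q)` with `p - q = d σ` (`HasTypes`). The condition is that for all
such `w` a function `n` on the complex embeddings of `E` with `n (conj φ) = - n φ` which is invariant under all automorphisms `τ` of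
`ℂ` with `d (σ τ) = d σ` for all `σ` is zero. It is true for all `E` if the cohomology of `Y` has no sub-Hodge structures with
complex multiplication except those of type `(p, p)`; and it is true (`BettiCriterion`) if all Betti numbers of `Y` are less than
`2 * dim S` for all minimal nonzero spaces `S` of functions `n` with `n (conj φ) = - n φ` which are stable under the automorphisms of
`ℂ`. So for a generic CM field `E`, for which there is only one such space, of dimension `g`, it is true for ALL varieties `Y` with
Betti numbers less than `2 g`.

Here `p` is any prime factor of `g` (or `p = 1`), and `rate E g p` is `(1 + log (2 g)) ^ 16` times the smaller of the numbers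
`W (E) / √g` and `√g / p`, where `W (E) ≤ N ^ 2 * D ^ (1 / 4)` (`WeightEstimate`), `N` is the number of the CM subfields of `E` and `D`
is the largest degree of a CM subfield of `E` that is normal over `ℚ` with a nonabelian Galois group (`D = 1` if there are none). The
same is true for the products of powers of the abelian varieties of the types `Φ i` of finitely many CM fields `E i` that are pairwise
independent and all `Y` unrelated to all `E i`.

Of the absolute Hodge classes (`AbsoluteClasses`) two properties are used: the exterior product of a combination of products of
divisor classes on `A` and an absolute Hodge class on `Y` is an absolute Hodge class on `A × Y`; the restriction of an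
absolute Hodge class to `{0} × Y` is an absolute Hodge class. The theorem of Deligne (all Hodge classes on abelian varieties are
absolute) is not used; it does not apply, since `Y` is arbitrary.
-/

set_option autoImplicit false

namespace Pool.Agent.Results.MP_4e1cf2_ag.CMTypesTimes

open NumberField Module Finset Pool.Agent.H204R3.CM Pool.Agent.H977R3.CM Pool.Agent.Y1.KN
  Pool.Agent.Y1.HZ Pool.Agent.TH131.GHC Pool.Agent.Q265.AH

/-- On the products `A × Y` of the products `A` of copies of the abelian varieties of CM type `(E i, Φ i)` and of all varieties `Y`
unrelated to the fields `E i` all Hodge classes are absolute Hodge classes if and only if all Hodge classes on `Y` are. -/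
def AbsoluteTimes {ι : Type} {E : ι → Type} [∀ i, Field (E i)] [∀ i, NumberField (E i)]
    (Φ : ∀ i, Set (E i →+* ℂ)) : Prop :=
  ∀ (J : Type) [Fintype J] (t : J → ι) (v : ℕ) (V : Coh v), (∀ i, UnrelatedHodge V (E i)) →
    AbsoluteIff (per Φ t) V

/-- The families of CM types `Φ i` of the fields `E i` for which the Hodge classes on the products of `A` and some unrelated variety
`Y` are not all sums of products, or for which the equivalence `AbsoluteTimes` fails. -/
def exceptionalFamilies {ι : Type} (E : ι → Type) [∀ i, Field (E i)] [∀ i, NumberField (E i)] :
    Set (∀ i, Set (E i →+* ℂ)) :=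
  {Φ | (∀ i, IsCMType (Φ i)) ∧ ¬ (HodgeTimes Φ ∧ AbsoluteTimes Φ)}

/-- **Hodge classes and absolute Hodge classes on the products of all varieties with the powers of the abelian varieties of
almost all CM types of all CM fields with few CM subfields, and of all CM fields whose degree has a
large prime factor.** -/
theorem result :
    (∃ C : ℝ, 0 ≤ C ∧ ∀ (ι : Type) [Fintype ι] (E : ι → Type) [∀ i, Field (E i)]
      [∀ i, NumberField (E i)] [∀ i, IsCMField (E i)] (g p : ι → ℕ), PairwiseIndep E →
      (∀ i, finrank ℚ (E i) = 2 * g i) → (∀ i, p i ∣ g i ∧ (p i = 1 ∨ (p i).Prime)) →
      ((exceptionalFamilies E).ncard : ℝ) ≤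
        2 ^ (∑ i, g i) * ∑ i, C * rate (E i) (g i) (p i)) ∧
    WeightEstimate ∧ BettiCriterion := by
  refine ⟨?_, weight_estimate_holds, bettiCriterion_holds⟩
  obtain ⟨C, hC0, hC⟩ := families_holds
  refine ⟨C, hC0, ?_⟩
  intro ι _ E _ _ _ g p hE hg hp
  have h1 := hC ι E (fun _ _ => 1) (fun _ => 1) g p (fun _ _ => rfl) (fun _ => one_ne_zero)
    (fun _ _ => one_dvd _) hg hp (fun Φ => HodgeTimes Φ ∧ AbsoluteTimes Φ) (by
      intro Φ hΦ hnd
      have h := hodgeTimes_of_not_degenerate hΦ hE fun i => not_degenerate (hΦ i) (hnd i)
      exact ⟨h, fun J _ t v V hV => absoluteIff fun F hF => h J t v V hV F hF⟩)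
  simp only [Nat.cast_one, one_pow, mul_one] at h1
  exact h1

end Pool.Agent.Results.MP_4e1cf2_ag.CMTypesTimes
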