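import Pool.Agent.Q193.LT.Cyc

/-!
# Hodge classes on varieties over number fields and tripartite hypergraphs

For a smooth projective complex variety `Y` let `AH^n(Y)` be the space of absolute Hodge classes (with the
de Rham and the étale conditions) and `Hdg^n(Y)` the space of Hodge classes in `H^{2n}(Y, ℚ(n))`. Both
are functors of Chow motives. For a separated scheme `X` of finite type over `ℚ` let `W(X)` be the weight
complex of `X_ℂ` (Gillet, Soulé), with `W(X) = h(X_ℂ)` for smooth projective `X`, and for `n, i ∈ ℤ` let

* `A^{n,i}(X) = H^i(AH^n(W(X)))`;
* `B^{n,i}(X) = H^i(Hdg^n(W(X)))`, which is the space of Hodge classes in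
  `Gr^W_{2n} H^{2n+i}_c(X_ℂ, ℚ(n))`.

The inclusion of `AH^n` in `Hdg^n` gives maps `A^{n,i}(X) → B^{n,i}(X)`; `BijAll C X` says that they are
isomorphisms for all `n` and `i`. For smooth projective `Y` over `ℚ` this says that every Hodge class on
`Y_ℂ` is absolute Hodge. The smooth projective complex varieties which can be defined over number fields
are the unions of connected components of these varieties `Y_ℂ`.

For a finite set `H` of triples `(i, j, l)` (a tripartite hypergraph) let `X_H` be the smooth affine
cubic hypersurface `∑_{(i, j, l) ∈ H} x_i y_j z_l = 1` over `ℚ`.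

**Theorem.** (1) Every Hodge class on every smooth projective complex variety that can be defined over a
number field is absolute Hodge if and only if the maps `A^{n,i}(X_H) → B^{n,i}(X_H)` are isomorphisms for
all finite sets `H` of triples and all `n`, `i`.

(2) For all `d`, every Hodge class on every smooth projective variety of dimension at most `d` that can
be defined over a number field is absolute Hodge if and only if the maps are isomorphisms for the
hypersurfaces `T(x, y, z) = 1` of all trilinear forms `T` with rational coefficients such that one of the
three blocks of variables has at most `d + 2` variables (the other two blocks are arbitrary).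
-/

set_option autoImplicit false

open CategoryTheory CategoryTheory.Limits AlgebraicGeometry Pool.Agent.Y116.UV Pool.Agent.Z125.UN
  Pool.Agent.Q193.LT

universe w

namespace Pool.Agent.Results.MP_4e1cf2_ag.HypergraphCubics

/-- The maps are isomorphisms for all smooth projective schemes of dimension at most `n`. -/
def Proj {k E : Type} [Field k] [Field E] (C : PairData.{w} k (ℤ × ℤ) E) (n : ℕ) : Prop :=
  ∀ Y : Sch k, SmoothProj Y → topologicalKrullDim Y.left ≤ n → BijAll C Y

/-- The maps are isomorphisms for all hypersurfaces `T = 1` with a block of at most `m` variables. -/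
def Forms {k E : Type} [Field k] [Field E] (C : PairData.{w} k (ℤ × ℤ) E) (m : ℕ) : Prop :=
  ∀ (a b c : ℕ) (T : Fin a → Fin b → Fin c → k), (a ≤ m ∨ b ≤ m ∨ c ≤ m) → BijAll C (hypS T)

/-- **Hodge classes over number fields and tripartite hypergraphs.** See the explanations above. -/
theorem result {C : PairData.{w} ℚ (ℤ × ℤ) ℚ} (hC : IsWeightPair C) (hg : WeightGen C)
    (point : BijAll C (aff ℚ ℚ)) :
    ((∀ Y : Sch ℚ, SmoothProj Y → BijAll C Y) ↔
      ∀ (a b c : ℕ) (H : Finset (Fin a × Fin b × Fin c)), BijAll C (tripS ℚ H)) ∧
    ∀ d : ℕ, Proj C d ↔ Forms C (d + 2) :=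
  ⟨wg_graph hg hC point frac_rat, fun d => wg_dim hg hC point d⟩

end Pool.Agent.Results.MP_4e1cf2_ag.HypergraphCubics
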