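import Mathlib
import Pool.Agent.Q63.MP.Fin
import Pool.Agent.Q265.AH.Sys

/-!
# Hodge classes and absolute Hodge classes on the products of any variety and abelian varieties with many independent periods

Let `A = ℂ ^ g / (ℤ ^ g + Z ℤ ^ g)` be a principally polarized abelian variety with period matrix `Z`, let `Y` be ANY
smooth projective variety, with periods in the subfield `K` of the complex numbers (the entries of the Hodge operator of the
rational cohomology of `Y` are in `K`), and let `D` entries of `Z` be algebraically independent over `K`.

If `A` is simple and `D > g ^ 2 / 4`, or if `D > g (g - 1) / 2 + 1 / 4`, then for all `n`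

* every Hodge class on `A ^ n × Y` is a sum of products `f ⊗ x`, where `f` is a combination of products of divisor classes on
  `A ^ n` and `x` is a Hodge class on `Y`;
* hence all Hodge classes on `A ^ n × Y` are absolute Hodge classes if and only if all Hodge classes on `Y` are absolute Hodge
  classes. In particular they are if `Y` has dimension at most three, or is a product of abelian varieties, K3 surfaces and
  curves, and so on.

There is no condition on the position of `A` in a family: it is one abelian variety, and the only assumption is on the
transcendence degree of its periods over the periods of `Y`. In general (first part of the theorem, without a condition on the number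
`D`) there is an abelian subvariety `B` such that the Hodge classes on `A ^ n` come from divisor classes and from `(A / B) ^ n`, with a
bound for the dimension `r` of `A / B` in terms of `D`, and the conclusions hold if `r = 0`.

The theorem of Deligne (Hodge classes on abelian varieties are absolute Hodge classes) is used nowhere. It does not imply the
result: `Y` is arbitrary, and there could be Hodge classes on `A ^ n × Y` which come from the Hodge substructures of tensor
constructions of `H(A)` contained in `H(Y)`.

Of the absolute Hodge classes (`AbsoluteClasses`) two properties are used: the exterior product of a combination of products of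
divisor classes on `A ^ n` and an absolute Hodge class on `Y` is an absolute Hodge class on `A ^ n × Y`; the restriction of an
absolute Hodge class to `{0} × Y` is an absolute Hodge class.
-/

set_option autoImplicit false

namespace Pool.Agent.Results.MP_4e1cf2_ag.ManyPeriodsTimes

open Module Pool.Agent.W437.HC Pool.Agent.W437.HD Pool.Agent.TH504.CB Pool.Agent.TH131.GHC Pool.Agent.Q265.AH

/-- Let `Z` be the period matrix of the principally polarized abelian variety `A` of dimension `g`, let `V` be the cohomology of a
smooth projective variety `Y` whose periods are in the field `K`, and let the entries of `Z` with index in `s` be algebraically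
independent over `K`. There are an abelian subvariety `B` of `A` and the dimension `r` of `A / B` such that `r` is bounded in terms of
the number of elements of `s` (`SmallQuotient`), the Hodge classes on the powers of `A` come from divisor classes and from the powers
of `A / B`; and `r = 0` if `A` is simple and `4 D > g ^ 2`, or if `4 D > 2 g (g - 1) + 1`. If `r = 0` then for all `n` every Hodge
class on `A ^ n × Y` is a sum of products of combinations of products of divisor classes on `A ^ n` and Hodge classes on `Y`, and all
Hodge classes on `A ^ n × Y` are absolute Hodge classes if and only if all Hodge classes on `Y` are absolute Hodge classes. -/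
theorem result {g : ℕ} (Z : Matrix (Fin g) (Fin g) ℂ) (hsymm : Z.transpose = Z)
    (hpos : (Z.map Complex.im).PosDef) {v : ℕ} (V : Coh v) (K : Subfield ℂ)
    (hK : ∀ a b, V.z a b ∈ K) (s : Finset (Fin g × Fin g))
    (hs : AlgebraicIndependent K fun a : s => Z a.1.1 a.1.2) :
    ∃ (B : Submodule ℚ (Fin g ⊕ Fin g → ℚ)) (r : ℕ), IsAbelianSubvariety Z B ∧
      finrank ℚ B + 2 * r = 2 * g ∧ SmallQuotient g s.card r ∧ HodgeClassesFromQuotient Z B ∧
      ((IsSimpleAV Z ∧ g ^ 2 < 4 * s.card) ∨ 2 * g * (g - 1) + 1 < 4 * s.card → r = 0) ∧
      (r = 0 → ∀ n, HodgeClassesOnTimes Z n V ∧ AbsoluteIff (perPow Z n) V) := by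
  obtain ⟨B, r, h1, h2, h3, h4, -, h6⟩ := Pool.Agent.Q63.MP.main hsymm hpos V K hK s hs
  refine ⟨B, r, h1, h2, h3, h4, fun hD => ?_, fun hr n => ⟨h6 hr n, absoluteIff (h6 hr n)⟩⟩
  rcases Nat.eq_zero_or_pos g with hg | hg
  · omega
  rcases hD with ⟨hZ, hD⟩ | hD
  · have h7 : r ≤ g - 1 := h3 (g - 1) hD (by
      have h8 : g - 1 + 1 = g := by omega
      rw [h8]
      have h9 : g - (g - 1) - 1 = 0 := by omega
      rw [h9, Nat.mul_zero, Nat.zero_mul, Nat.add_zero]
      exact hD)
    rcases hZ B h1 with h8 | h8
    · rw [h8, finrank_bot] at h2
      omega
    · rw [h8, finrank_top, Module.finrank_fintype_fun_eq_card, Fintype.card_sum,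
        Fintype.card_fin] at h2
      omega
  · have hg2 : g ^ 2 < 4 * s.card := by
      obtain ⟨m, rfl⟩ : ∃ m, g = m + 1 := ⟨g - 1, by omega⟩
      rw [Nat.add_sub_cancel] at hD
      rcases m with _ | m
      · omega
      · nlinarith
    have h7 : r ≤ 0 := h3 0 hg2 (by
      have h9 : (0 + 1) ^ 2 + 2 * (g - 0 - 1) * (g - 0) = 2 * g * (g - 1) + 1 := by
        rw [Nat.sub_zero]
        ring
      rw [h9]
      exact hD)
    omega

end Pool.Agent.Results.MP_4e1cf2_ag.ManyPeriodsTimes
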