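import Mathlib
import Pool.Agent.Y91.PS.Free
import Pool.Agent.Q265.AH.Sys

/-!
# Hodge classes and absolute Hodge classes on the products of all varieties over a countable field and very general members of
# families of abelian varieties

Let `A i` be finitely many families of principally polarized abelian varieties, not constant, given by holomorphic families `Z i` of
period matrices over the connected open set `U`, and suppose that each of them is good (`IsGoodFamily`): it satisfies one of the
following conditions.

1. The very general member is simple, more than half of its endomorphisms are symmetric for the Rosati involution and some rational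
   rank `r` is different from `0`, `g / 2` and `g`, and `(g, r)` is not exceptional, or there is another rational rank. A rational
   rank is the rank of `γ - 1` for a monodromy operator `γ` with `(γ - 1) ^ 2 = 0`, or the rank of any rational square zero
   element of the Lie algebra generated by the Hodge operators. The pair is exceptional if `2 g = e * C(4j+2, 2j+1)` and
   `r = e * C(4j, 2j)` for some `e` and some `j ≥ 1`, for instance `(10, 6)`, `(126, 70)`.
2. All endomorphisms are rational numbers, some rank `r` of the family is different from `0`, `g / 2` and `g`, and `(g, r)` is not
   exceptional with `e = 1` or there is another rank, and `2 g` does not divide the product of two of the ranks. Here a rank of the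
   family is the rank of the Kodaira-Spencer map at one point, of the difference of two period matrices, of the image of a period
   matrix under a derivation of the complex numbers, or of any square zero element of the Lie algebra generated by the Hodge operators.
3. The very general member is simple and some rank of the family is odd, or is two and the centre of the endomorphism algebra is
   totally real.

Let `K` be a countable field of complex numbers (for instance one which contains all periods of all varieties over number fields).
Then for all `t` in `U` outside of a countable set, all products `A` of the members `A i t` (repetitions allowed) and ALL smooth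
projective varieties `Y` such that the Hodge operator of the cohomology of `Y` has entries in `K` or such that `Y` is of CM type:

* every Hodge class on `A × Y` is a sum of products `f ⊗ x`, where `f` is a combination of products of divisor classes on `A` and
  `x` is a Hodge class on `Y`;
* hence all Hodge classes on `A × Y` are absolute Hodge classes if and only if all Hodge classes on `Y` are absolute Hodge classes.

Of the absolute Hodge classes (`AbsoluteClasses`) two properties are used: the exterior product of a combination of products of
divisor classes on `A` and an absolute Hodge class on `Y` is an absolute Hodge class on `A × Y`; the restriction of an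
absolute Hodge class to `{0} × Y` is an absolute Hodge class. The theorem of Deligne (all Hodge classes on abelian varieties are
absolute) is not used; it does not apply, since `Y` is arbitrary.
-/

set_option autoImplicit false

namespace Pool.Agent.Results.MP_4e1cf2_ag.VeryGeneralTimes

open Matrix Module Pool.Agent.H204R3.CM Pool.Agent.H194R3.CM Pool.Agent.W437.HD
  Pool.Agent.W437.HP Pool.Agent.TH131.GHC Pool.Agent.TH504.VY Pool.Agent.TH504.CB Pool.Agent.Y91.Sharp
  Pool.Agent.Y91.PS Pool.Agent.Q265.AH

/-- Each Hodge class on `A × Y` is a sum of products `f ⊗ x` of a combination `f` of products of divisor classes on the complex torus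
`A` and a Hodge class `x` on `Y`, where `V` is the cohomology of `Y`. -/
def HodgeClassesAreProductsOn {W T : Type} [AddCommGroup W] [Module ℚ W] [AddCommGroup T]
    [Module ℂ T] (per : W →+ T) {v : ℕ} (V : Coh v) : Prop :=
  ∀ F, IsHodgeOnProduct per V F → F ∈ crossSpan per V

/-- Let `Z i` be finitely many good families over the connected open set `U`, not constant, and `K` a
countable field of complex numbers. For all `t` in `U` outside of a countable set, for all
varieties `Y` of CM type or whose Hodge operator has entries in `K`, and for all products `A` of
abelian varieties `ℂ ^ g / (ℤ ^ g + Z(t) ℤ ^ g)`, `Z` one of the `Z i` (repetitions allowed): the Hodge classes on `A × Y` are sums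
of products, and they are all absolute if and only if all Hodge classes on `Y` are. -/
theorem result {ι : Type} [Fintype ι] {U : Set ℂ} (hU : IsOpen U) (hc : IsPreconnected U)
    {g : ι → ℕ} (Z : ∀ i, ℂ → Matrix (Fin (g i)) (Fin (g i)) ℂ)
    (h : ∀ i, IsGoodFamily U (Z i)) (hnc : ∀ i, ∃ s ∈ U, ∃ t ∈ U, Z i s ≠ Z i t)
    (K : Subfield ℂ) (hK : (K : Set ℂ).Countable) :
    ∃ E : Set ℂ, E.Countable ∧ ∀ t ∈ U, t ∉ E → ∀ {v : ℕ} (V : Coh v),
      (Pool.Agent.Y91.PS.IsCMType V ∨ HasPeriodsIn K V) → ∀ {m : ℕ} (c : Fin m → ι),
        HodgeClassesAreProductsOn (perFam (fun i => Z i t) c) V ∧
          AbsoluteIff (perFam (fun i => Z i t) c) V := by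
  obtain ⟨E, hE, hEt⟩ := exists_free hU hc Z h hnc K hK
  refine ⟨E, hE, fun t ht htE v V hV m c => ?_⟩
  have h1 : HodgeClassesAreProductsOn (perFam (fun i => Z i t) c) V := by
    intro F hF
    refine (hEt t ht htE V hV c).mem_of_integrals hF fun k j e f hf β _ => ?_
    exact Submodule.subset_span ⟨k, f, _, hf, (hEt t ht htE V hV c).integral_mem hF e β, rfl⟩
  exact ⟨h1, absoluteIff h1⟩

end Pool.Agent.Results.MP_4e1cf2_ag.VeryGeneralTimes
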